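import Pool.Agent.N290.RI.Stm
import Pool.Agent.H720R2.Cor.Lim

/-!
Project RI (helper290), part D4 (helper281): limits of families with locally bounded majorants.
-/

set_option autoImplicit false

open Complex MeasureTheory Set Filter Topology
open scoped ENNReal

namespace Pool.Agent.N281.RI

open Pool.Agent.N290.RI

namespace D4aux

/-- the balls of the exhaustion -/
def Bm (m : ℕ) : Set (ℂ × ℂ) := {z | nm z < 1 - 1 / ((m : ℝ) + 2)}

theorem Bm_open (m : ℕ) : IsOpen (Bm m) := by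
  refine isOpen_lt ?_ continuous_const
  unfold nm
  exact Real.continuous_sqrt.comp N_continuous

theorem Bm_sub (m : ℕ) : Bm m ⊆ B := by
  intro z hz
  rw [mem_B_nm]
  have h1 : nm z < 1 - 1 / ((m : ℝ) + 2) := hz
  have h2 : (0 : ℝ) < 1 / ((m : ℝ) + 2) := by positivity
  linarith

theorem mem_Bm {z : ℂ × ℂ} (hz : z ∈ B) : ∃ m, z ∈ Bm m := by
  rw [mem_B_nm] at hz
  obtain ⟨m, hm⟩ := exists_nat_one_div_lt (show 0 < 1 - nm z by linarith)
  refine ⟨m, ?_⟩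
  show nm z < 1 - 1 / ((m : ℝ) + 2)
  have h1 : 1 / ((m : ℝ) + 2) ≤ 1 / ((m : ℝ) + 1) :=
    one_div_le_one_div_of_le (by positivity) (by linarith)
  linarith

theorem lim (M : ℂ × ℂ → ℝ≥0∞) (hM : ∀ r : ℝ, 0 ≤ r → r < 1 → ∃ C : ℝ, ∀ z, nm z ≤ r →
    M z ≤ ENNReal.ofReal C) (𝒰 : Ultrafilter ℕ) (u : ℕ → ℂ × ℂ → ℂ)
    (hu : ∀ k, DifferentiableOn ℂ (u k) B) (hb : ∀ k, ∀ z ∈ B, ENNReal.ofReal ‖u k z‖ ≤ M z) :
    ∃ v : ℂ × ℂ → ℂ, DifferentiableOn ℂ v B ∧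
      (∀ z ∈ B, Tendsto (fun k => u k z) 𝒰 (𝓝 (v z))) ∧
      ∀ z ∈ B, ENNReal.ofReal ‖v z‖ ≤ M z := by
  have h1 : ∀ m, ∃ v : ℂ × ℂ → ℂ, DifferentiableOn ℂ v (Bm m) ∧
      ∀ z ∈ Bm m, Tendsto (fun k => u k z) 𝒰 (𝓝 (v z)) := by
    intro m
    have e1 : (0 : ℝ) ≤ 1 - 1 / ((m : ℝ) + 2) := by
      rw [sub_nonneg, div_le_one (by positivity)]
      have : (0 : ℝ) ≤ m := Nat.cast_nonneg m
      linarith
    have e2 : 1 - 1 / ((m : ℝ) + 2) < 1 := by
      have : (0 : ℝ) < 1 / ((m : ℝ) + 2) := by positivity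
      linarith
    obtain ⟨C, hC⟩ := hM _ e1 e2
    obtain ⟨v, hv1, -, hv3⟩ := Pool.Agent.H720R2.Cor.ultra_lim (Bm_open m) (C := max C 0) 𝒰 u
      (fun k => (hu k).mono (Bm_sub m)) (by
        intro k z hz
        have h2 := (hb k z (Bm_sub m hz)).trans (hC z (le_of_lt hz))
        rw [ENNReal.ofReal_le_ofReal_iff'] at h2
        rcases h2 with h2 | h2
        · exact h2.trans (le_max_left _ _)
        · exact h2.trans (le_max_right _ _))
    exact ⟨v, hv1, hv3⟩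
  choose v hv1 hv3 using h1
  have h2 : ∀ z, ∃ c : ℂ, z ∈ B → Tendsto (fun k => u k z) 𝒰 (𝓝 c) := by
    intro z
    by_cases hz : z ∈ B
    · obtain ⟨m, hm⟩ := mem_Bm hz
      exact ⟨v m z, fun _ => hv3 m z hm⟩
    · exact ⟨0, fun h => absurd h hz⟩
  choose V hV using h2
  refine ⟨V, ?_, hV, ?_⟩
  · intro z hz
    obtain ⟨m, hm⟩ := mem_Bm hz
    have h3 : DifferentiableAt ℂ (v m) z := (hv1 m).differentiableAt ((Bm_open m).mem_nhds hm)
    have h4 : V =ᶠ[𝓝 z] v m := by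
      filter_upwards [(Bm_open m).mem_nhds hm] with p hp
      exact tendsto_nhds_unique (hV p (Bm_sub m hp)) (hv3 m p hp)
    exact (h3.congr_of_eventuallyEq h4).differentiableWithinAt
  · intro z hz
    have h3 : Tendsto (fun k => ENNReal.ofReal ‖u k z‖) 𝒰 (𝓝 (ENNReal.ofReal ‖V z‖)) :=
      ENNReal.tendsto_ofReal (hV z hz).norm
    exact le_of_tendsto h3 (Eventually.of_forall fun k => hb k z hz)

theorem rad_tendsto : Tendsto rad atTop (𝓝 1) := by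
  have h := (tendsto_pow_atTop_nhds_zero_of_lt_one (show (0 : ℝ) ≤ 1 / 2 by norm_num)
    (show (1 / 2 : ℝ) < 1 by norm_num)).const_sub 1
  rw [sub_zero] at h
  exact h

theorem comp_tendsto (f : ℂ × ℂ → ℂ) (hf : DifferentiableOn ℂ f B) {z : ℂ × ℂ} (hz : z ∈ B) :
    Tendsto (fun k => f (rad k • z)) atTop (𝓝 (f z)) := by
  have h1 : ContinuousAt f z := (hf.differentiableAt (B_open.mem_nhds hz)).continuousAt
  have h2 : Tendsto (fun k => rad k • z) atTop (𝓝 z) := by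
    have := rad_tendsto.smul_const z
    rwa [one_smul] at this
  exact h1.tendsto.comp h2

end D4aux

open D4aux in
theorem D4 : Pool.Agent.N290.RI.D4 := by
  intro M hM f g hf hg hk
  choose h l hh hl hkl using hk
  obtain ⟨𝒰, hle⟩ : ∃ 𝒰 : Ultrafilter ℕ, (𝒰 : Filter ℕ) ≤ atTop :=
    ⟨Ultrafilter.of atTop, Ultrafilter.of_le _⟩
  obtain ⟨h0, h01, h02, h03⟩ := lim M hM 𝒰 h hh fun k z hz => (hkl k z hz).2.1
  obtain ⟨l0, l01, l02, l03⟩ := lim M hM 𝒰 l hl fun k z hz => (hkl k z hz).2.2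
  refine ⟨h0, l0, h01, l01, fun z hz => ⟨?_, h03 z hz, l03 z hz⟩⟩
  have h1 : Tendsto (fun k => f (rad k • z) * h k z + g (rad k • z) * l k z) 𝒰
      (𝓝 (f z * h0 z + g z * l0 z)) :=
    (((comp_tendsto f hf hz).mono_left hle).mul (h02 z hz)).add
      (((comp_tendsto g hg hz).mono_left hle).mul (l02 z hz))
  have h2 : (fun k => f (rad k • z) * h k z + g (rad k • z) * l k z) = fun _ => (1 : ℂ) := by
    funext k
    exact (hkl k z hz).1
  rw [h2] at h1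
  exact tendsto_nhds_unique h1 tendsto_const_nhds

end Pool.Agent.N281.RI
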